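import Pool.Agent.X247.TW.Main

/-!
# The whole program
-/

namespace Pool.Agent.X247.TW

open Pool.Agent.H672R2.Ram

/-- The memory holding a word: its length is in register `0`, its letters are in the cells
`(0, i)` of the array `0`, everything else is `0`. -/
def inp {s : ℕ} (u : List (Fin s)) : Mem :=
  ⟨fun x => if x = 0 then u.length else 0,
    fun r i j => if r = 0 ∧ i = 0 then (if h : j < u.length then ((u[j]'h : Fin s) : ℕ) else 0)
      else 0⟩

variable {s : ℕ} (A : SM (Fin s))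

/-- the table of the new states -/
def nxT (c a : ℕ) : ℕ := if h : c < A.K ∧ a < s then A.nx ⟨c, h.1⟩ ⟨a, h.2⟩ else 0

/-- the table of the acceptance -/
def finT (_ c : ℕ) : ℕ := if h : c < A.K then (if A.fin ⟨c, h⟩ = true then 1 else 0) else 0

/-- the table of the letters -/
noncomputable def lcT (_ a : ℕ) : ℕ := if h : a < s then A.cd (A.g ⟨a, h⟩) else 0

/-- all tables -/
noncomputable def p0 : Prog :=
  .seq (tabP 2 A.NB A.mulT A.NB) (.seq (tabP 3 A.K A.actT A.NB) (.seq (tabP 6 s (nxT A) A.K)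
    (.seq (tabP 7 A.K (finT A) 1) (tabP 8 s (lcT A) 1))))

theorem ok_p0 {n : ℕ} {w : ℕ → Fin s} {m : Mem} (h0 : m.v 0 = n)
    (hin : ∀ i < n, m.a 0 0 i = w i) :
    Ok (p0 A) m ((A.NB * (4 * A.NB + 1) + 1) + ((A.NB * (4 * A.K + 1) + 1) +
      ((A.K * (4 * s + 1) + 1) + ((1 * (4 * A.K + 1) + 1) + (1 * (4 * s + 1) + 1)))))
      (fun m' => Base A n w m' ∧ ∀ r, r = 1 ∨ r = 4 ∨ r = 5 → m'.a r = m.a r) := by
  unfold p0
  refine ok_seq (ok_tab 2 A.NB A.mulT m A.NB) fun m1 h1 =>
    ok_seq (ok_tab 3 A.K A.actT m1 A.NB) fun m2 h2 =>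
    ok_seq (ok_tab 6 s (nxT A) m2 A.K) fun m3 h3 =>
    ok_seq (ok_tab 7 A.K (finT A) m3 1) fun m4 h4 =>
    (ok_tab 8 s (lcT A) m4 1).weaken le_rfl fun m5 h5 => ?_
  have e : ∀ r i j, m5.a r i j = if r = 8 ∧ i < 1 ∧ j < s then lcT A i j else
      if r = 7 ∧ i < 1 ∧ j < A.K then finT A i j else
      if r = 6 ∧ i < A.K ∧ j < s then nxT A i j else
      if r = 3 ∧ i < A.NB ∧ j < A.K then A.actT i j else
      if r = 2 ∧ i < A.NB ∧ j < A.NB then A.mulT i j else m.a r i j := by
    intro r i j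
    rw [h5.2, h4.2, h3.2, h2.2, h1.2]
  refine ⟨?_, fun r hr => ?_⟩
  · constructor
    · rw [h5.1, h4.1, h3.1, h2.1, h1.1, h0]
    · intro b b'
      rw [e, if_neg (by omega), if_neg (by omega), if_neg (by omega), if_neg (by omega),
        if_pos ⟨rfl, A.cd_lt b, A.cd_lt b'⟩, A.mulT_cd]
    · intro b x
      rw [e, if_neg (by omega), if_neg (by omega), if_neg (by omega),
        if_pos ⟨rfl, A.cd_lt b, x.2⟩, A.actT_cd]
    · intro x a
      rw [e, if_neg (by omega), if_neg (by omega), if_pos ⟨rfl, x.2, a.2⟩]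
      unfold nxT
      rw [dif_pos ⟨x.2, a.2⟩]
    · intro x
      rw [e, if_neg (by omega), if_pos ⟨rfl, by omega, x.2⟩]
      unfold finT
      rw [dif_pos x.2]
    · intro a
      rw [e, if_pos ⟨rfl, by omega, a.2⟩]
      unfold lcT
      rw [dif_pos a.2]
    · intro i hi
      rw [e, if_neg (by omega), if_neg (by omega), if_neg (by omega), if_neg (by omega),
        if_neg (by omega)]
      exact hin i hi
  · funext i j
    rw [e, if_neg (by omega), if_neg (by omega), if_neg (by omega), if_neg (by omega),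
      if_neg (by omega)]

/-- the program -/
noncomputable def prog (x : Fin A.K) : Prog :=
  .seq (p0 A) (.seq p1 (.seq p2 (.seq p3 (.seq (.assign 6 (.lit x))
    (.seq (.assign 9 (.lit 1)) mainP)))))

theorem clog_le (n : ℕ) : Nat.clog 2 n ≤ Nat.log 2 n + 1 :=
  (Nat.clog_le_iff_le_pow one_lt_two).2 (Nat.lt_pow_succ_log_self one_lt_two n).le

theorem ok_prog_pos [NeZero s] (x : Fin A.K) : ∃ C : ℕ, ∀ u : List (Fin s),
    Ok (prog A x) (inp u) (C * ((u.length + 1) * (Nat.log 2 u.length + 1)))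
      (fun m' => m'.v 1 = 1 ↔ A.Acc x u) := by
  set T := (A.NB * (4 * A.NB + 1) + 1) + ((A.NB * (4 * A.K + 1) + 1) +
      ((A.K * (4 * s + 1) + 1) + ((1 * (4 * A.K + 1) + 1) + (1 * (4 * s + 1) + 1)))) with hT
  refine ⟨T + 1000, fun u => ?_⟩
  set n := u.length with hn
  let w : ℕ → Fin s := fun i => u.getD i 0
  have hcur : SM.cur w (fun _ => true) n = u := by
    unfold SM.cur
    apply List.ext_getElem
    · simp [hn]
    · intro i h1 h2
      simp only [List.filter_true, List.getElem_map, List.getElem_range]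
      simp [w, h2]
  have hin : ∀ i < n, (inp u).a 0 0 i = w i := by
    intro i hi
    simp only [inp, true_and, if_true]
    rw [dif_pos hi]
    simp only [w]
    rw [List.getD_eq_getElem _ _ hi]
  have hleaf : ∀ j, n ≤ j → A.leaf w n (fun _ => true) j = A.triv := fun j hj => by
    unfold SM.leaf
    rw [if_neg (by omega)]
  unfold prog
  refine (ok_seq (ok_p0 A (n := n) (w := w) (by simp [inp, hn]) hin) fun m1 h1 =>
    ok_seq (ok_p1 (n := n) h1.1.h0 ?_) fun m2 h2 =>
    ok_seq (ok_p2 (n := n) h2.h0) fun m3 h3 =>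
    ok_seq (ok_p3 A (n := n) (w := w) (l := A.leaf w n fun _ => true) ?_ hleaf ?_ ?_) fun m4 h4 =>
    ok_assign_seq (ok_assign_seq (ok_main A (n := n) (w := w) (H := Nat.clog 2 n)
      (k := n + 1) ?_ ?_))).weaken ?_ fun _ h => h
  · rw [h1.2 4 (by omega)]
    simp [inp]
  · have hb2 : Base A n w m2 := h1.1.congr (h2.h0.trans h1.1.h0.symm)
      fun r _ h h' => h2.rest r h h'
    have hb3 : Base A n w m3 := hb2.congr (h3.h0.trans h2.h0.symm)
      fun r h _ _ => h3.rest r h
    constructor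
    · exact hb3
    · rw [h3.rest 4 (by omega)]; exact h2.dbl
    · rw [h3.rest 5 (by omega)]; exact h2.half
  · intro j
    have hb2 : Base A n w m2 := h1.1.congr (h2.h0.trans h1.1.h0.symm)
      fun r _ h h' => h2.rest r h h'
    rw [h3.lf]
    by_cases hj : j < n
    · rw [if_pos ⟨rfl, hj⟩, hb2.inp j hj, hb2.lc]
      unfold SM.leaf
      rw [if_pos ⟨hj, rfl⟩]
    · rw [if_neg (by omega), hleaf j (by omega), A.cd_triv, h2.rest 1 (by omega) (by omega),
        h1.2 1 (by omega)]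
      simp [inp]
  · intro h hh j
    rw [h3.lf, if_neg (by omega), h2.rest 1 (by omega) (by omega), h1.2 1 (by omega)]
    simp [inp]
  · exact (Nat.clog_le_iff_le_pow one_lt_two).1 le_rfl
  · left
    refine ⟨by simp [Expr.eval], fun _ => true, x, ?_, by simp [Expr.eval], ?_, ?_⟩
    · rw [hcur]
    · constructor
      · exact h4.tabs.congr (by simp) fun r _ => by simp
      · simp [h4.h2]
      · intro h hh j
        exact h4.seg h hh j
    · rw [hcur]
  · simp only [Expr.cost]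
    have h1 := clog_le n
    have h2 : (n + 1) * (Nat.clog 2 n + 1) ≤ (n + 1) * (2 * (Nat.log 2 n + 1)) :=
      Nat.mul_le_mul_left _ (by omega)
    have h3 : 1 ≤ (n + 1) * (Nat.log 2 n + 1) := Nat.mul_pos (by omega) (by omega)
    have h4 : n + 1 ≤ (n + 1) * (Nat.log 2 n + 1) := Nat.le_mul_of_pos_right _ (by omega)
    have h5 : T ≤ T * ((n + 1) * (Nat.log 2 n + 1)) := Nat.le_mul_of_pos_right _ (by omega)
    have h6 : (n + 1) * (150 * (Nat.clog 2 n + 1)) = 150 * ((n + 1) * (Nat.clog 2 n + 1)) := by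
      ring
    have h7 : 60 * (n + 1) * (Nat.clog 2 n + 1) = 60 * ((n + 1) * (Nat.clog 2 n + 1)) := by ring
    have h8 : (n + 1) * (2 * (Nat.log 2 n + 1)) = 2 * ((n + 1) * (Nat.log 2 n + 1)) := by ring
    have h9 : (T + 1000) * ((n + 1) * (Nat.log 2 n + 1)) =
        T * ((n + 1) * (Nat.log 2 n + 1)) + 1000 * ((n + 1) * (Nat.log 2 n + 1)) :=
      Nat.add_mul _ _ _
    rw [h6, h7, h9]
    rw [h8] at h2
    omega

theorem ok_prog (x : Fin A.K) : ∃ (P : Prog) (C : ℕ), ∀ u : List (Fin s),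
    Ok P (inp u) (C * ((u.length + 1) * (Nat.log 2 u.length + 1)))
      (fun m' => m'.v 1 = 1 ↔ A.Acc x u) := by
  by_cases hs : s = 0
  · subst hs
    classical
    refine ⟨.assign 1 (.lit (if A.Acc x [] then 1 else 0)), 2, fun u => ?_⟩
    have hu : u = [] := by
      cases u with
      | nil => rfl
      | cons a _ => exact a.elim0
    subst hu
    refine (ok_assign ?_).weaken (by simp [Expr.cost]) fun _ h => h
    by_cases h : A.Acc x []
    · simp [Expr.eval, h]
    · simp [Expr.eval, h]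
  · have : NeZero s := ⟨hs⟩
    obtain ⟨C, hC⟩ := ok_prog_pos A x
    exact ⟨_, C, hC⟩

end Pool.Agent.X247.TW
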