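import Pool.Agent.X247.TW.Asm

/-!
# Deterministic finite automata with translucent words
-/

namespace Pool.Agent.X247.TW

open Pool.Agent.H672R2.Ram

/-- prefix codes: sets of nonempty words, none of which is a proper prefix of another one -/
def IsPrefixCode {S : Type} (X : Set (List S)) : Prop :=
  [] ∉ X ∧ ∀ u ∈ X, ∀ v ∈ X, u <+: v → u = v

/-- A deterministic finite automaton with translucent words, with the states `Q` and the letters
`Fin s`. -/
structure DFAwtw (Q : Type) (s : ℕ) where
  /-- the finite set of the words translucent for a state -/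
  tau : Q → Finset (List (Fin s))
  /-- the partial transition function -/
  delta : Q → Fin s → Option Q
  /-- the initial state -/
  init : Q
  /-- the final states -/
  final : Set Q
  /-- if `tau q` is not empty, then `tau q` together with the letters read in `q` is a
  prefix code -/
  code : ∀ q, (tau q).Nonempty →
    IsPrefixCode ((tau q : Set (List (Fin s))) ∪ {x | ∃ a, x = [a] ∧ delta q a ≠ none})
  /-- a letter that is read in `q` is not translucent for `q` -/
  disj : ∀ q a, [a] ∈ tau q → delta q a = none

namespace DFAwtw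

variable {Q : Type} {s : ℕ} (A : DFAwtw Q s)

theorem nil_notMem (q : Q) : [] ∉ A.tau q := fun h => (A.code q ⟨_, h⟩).1 (Or.inl h)

theorem prefix_tau (q : Q) (u : List (Fin s)) (hu : u ∈ A.tau q) (v : List (Fin s))
    (hv : v ∈ A.tau q) (h : u <+: v) : u = v :=
  (A.code q ⟨_, hu⟩).2 u (Or.inl hu) v (Or.inl hv) h

theorem prefix_delta (q : Q) (a : Fin s) (q' : Q) (h : A.delta q a = some q')
    (v : List (Fin s)) (hv : v ∈ A.tau q) : ¬ [a] <+: v := by
  intro hp
  have h1 : A.delta q a ≠ none := by rw [h]; simp
  have h2 := (A.code q ⟨_, hv⟩).2 [a] (Or.inr ⟨a, rfl, h1⟩) v (Or.inl hv) hp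
  rw [← h2] at hv
  exact h1 (A.disj q a hv)

/-- `u` is a product of words of `tau q` -/
def Star (q : Q) (u : List (Fin s)) : Prop :=
  ∃ L : List (List (Fin s)), u = L.flatten ∧ ∀ y ∈ L, y ∈ A.tau q

/-- configurations -/
inductive Conf (Q : Type) (s : ℕ) : Type
  | run (q : Q) (w : List (Fin s)) : Conf Q s
  | accept : Conf Q s
  | reject : Conf Q s

/-- one step of the computation -/
inductive Step : Conf Q s → Conf Q s → Prop
  /-- the letter `a` is read and deleted -/
  | read (q q' : Q) (u v : List (Fin s)) (a : Fin s) : A.Star q u → A.delta q a = some q' →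
      Step (.run q (u ++ a :: v)) (.run q' (u ++ v))
  /-- the automaton is stuck -/
  | stuck (q : Q) (u v : List (Fin s)) (a : Fin s) : A.Star q u → A.delta q a = none →
      (¬ ∃ t ∈ A.tau q, ∃ z, a :: v = t ++ z) → Step (.run q (u ++ a :: v)) .reject
  /-- the end marker is reached in a final state -/
  | accept (q : Q) (w : List (Fin s)) : A.Star q w → q ∈ A.final → Step (.run q w) .accept
  /-- the end marker is reached in a state that is not final -/
  | reject (q : Q) (w : List (Fin s)) : A.Star q w → q ∉ A.final → Step (.run q w) .reject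

/-- the language of the automaton -/
def language : Set (List (Fin s)) :=
  {w | Relation.ReflTransGen A.Step (.run A.init w) .accept}

/-! ### The computation is deterministic -/

theorem star_nil (q : Q) : A.Star q [] := ⟨[], rfl, by simp⟩

theorem star_cons {q : Q} {t u : List (Fin s)} (ht : t ∈ A.tau q) (hu : A.Star q u) :
    A.Star q (t ++ u) := by
  obtain ⟨L, rfl, hL⟩ := hu
  exact ⟨t :: L, rfl, by simpa using ⟨ht, hL⟩⟩

theorem star_append {q : Q} {u v : List (Fin s)} (hu : A.Star q u) (hv : A.Star q v) :
    A.Star q (u ++ v) := by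
  obtain ⟨L, rfl, hL⟩ := hu
  obtain ⟨L', rfl, hL'⟩ := hv
  refine ⟨L ++ L', by simp, fun y hy => ?_⟩
  rcases List.mem_append.1 hy with h | h
  · exact hL y h
  · exact hL' y h

theorem star_single {q : Q} {t : List (Fin s)} (ht : t ∈ A.tau q) : A.Star q t :=
  ⟨[t], by simp, by simpa using ht⟩

/-! ### The scanning machine -/

variable [Fintype Q]

open Classical in
/-- the prefixes of the translucent words -/
noncomputable def pfx : Finset (List (Fin s)) :=
  insert [] ((Finset.univ : Finset Q).biUnion fun q => (A.tau q).biUnion fun t =>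
    t.inits.toFinset)

theorem nil_mem : [] ∈ A.pfx := Finset.mem_insert_self _ _

theorem mem_pfx {q : Q} {t p : List (Fin s)} (ht : t ∈ A.tau q) (hp : p <+: t) : p ∈ A.pfx := by
  unfold pfx
  refine Finset.mem_insert_of_mem (Finset.mem_biUnion.2 ⟨q, Finset.mem_univ _,
    Finset.mem_biUnion.2 ⟨t, ht, ?_⟩⟩)
  simpa using hp

/-- scanning states -/
abbrev St : Type := Q × {p // p ∈ A.pfx}

/-- the root -/
def root (q : Q) : A.St := (q, ⟨[], A.nil_mem⟩)

open Classical in
/-- one letter of the scan -/
noncomputable def scan (x : A.St) (a : Fin s) : A.St ⊕ Bool :=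
  if (x.2 : List (Fin s)) ++ [a] ∈ A.tau x.1 then Sum.inl (A.root x.1)
  else if (x.2 : List (Fin s)) = [] ∧ A.delta x.1 a ≠ none then Sum.inr true
  else if h : (x.2 : List (Fin s)) ++ [a] ∈ A.pfx ∧
      ∃ t ∈ A.tau x.1, (x.2 : List (Fin s)) ++ [a] <+: t then
    Sum.inl (x.1, ⟨(x.2 : List (Fin s)) ++ [a], h.1⟩)
  else Sum.inr false

/-- the state after a deletion -/
def next (x : A.St) (a : Fin s) : A.St :=
  match A.delta x.1 a with
  | some q' => A.root q'
  | none => x

/-- numbering of the scanning states -/
noncomputable def num : A.St ≃ Fin (Fintype.card A.St) := Fintype.equivFin A.St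

open Classical in
/-- the scanning machine -/
noncomputable def sm : SM (Fin s) where
  K := Fintype.card A.St
  g a x := Sum.map A.num id (A.scan (A.num.symm x) a)
  nx x a := A.num (A.next (A.num.symm x) a)
  fin x := decide (((A.num.symm x).2 : List (Fin s)) = [] ∧ (A.num.symm x).1 ∈ A.final)

/-- the code of a scanning state -/
noncomputable def nn (x : A.St) : Fin A.sm.K := A.num x

theorem sm_g (a : Fin s) (x : A.St) : A.sm.g a (A.nn x) =
    Sum.map A.nn id (A.scan x a) := by
  change Sum.map A.num id (A.scan (A.num.symm (A.num x)) a) = _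
  rw [Equiv.symm_apply_apply]
  rfl

theorem sm_nx (a : Fin s) (x : A.St) : A.sm.nx (A.nn x) a = A.nn (A.next x a) := by
  change A.num (A.next (A.num.symm (A.num x)) a) = _
  rw [Equiv.symm_apply_apply]
  rfl

open Classical in
theorem sm_fin (x : A.St) : A.sm.fin (A.nn x) = true ↔
    (x.2 : List (Fin s)) = [] ∧ x.1 ∈ A.final := by
  change decide (((A.num.symm (A.num x)).2 : List (Fin s)) = [] ∧
    (A.num.symm (A.num x)).1 ∈ A.final) = true ↔ _
  rw [Equiv.symm_apply_apply, decide_eq_true_iff]

theorem nn_surj (y : Fin A.sm.K) : ∃ x, A.nn x = y := A.num.surjective y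

theorem nn_inj {x y : A.St} (h : A.nn x = A.nn y) : x = y := A.num.injective h

/-- soundness of the scan -/
theorem beh_sound : ∀ (w : List (Fin s)) (x : A.St) (y : A.St),
    A.sm.beh w (A.nn x) = Sum.inl (A.nn y) → y.1 = x.1 ∧
      ∃ u, A.Star x.1 u ∧ (x.2 : List (Fin s)) ++ w = u ++ y.2 := by
  intro w
  induction w with
  | nil =>
    intro x y h
    change Sum.inl (A.nn x) = Sum.inl (A.nn y) at h
    have := A.nn_inj (Sum.inl.inj h)
    subst this
    exact ⟨rfl, [], A.star_nil _, by simp⟩
  | cons a w ih =>
    intro x y h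
    rw [SM.beh] at h
    unfold SM.comp at h
    rw [A.sm_g] at h
    unfold scan at h
    split_ifs at h with h1 h2 h3
    · simp only [Sum.map_inl] at h
      obtain ⟨e1, u, hu, e2⟩ := ih _ _ h
      refine ⟨e1, ((x.2 : List (Fin s)) ++ [a]) ++ u, A.star_cons h1 hu, ?_⟩
      rw [List.append_assoc _ u, ← e2]
      simp [root]
    · simp at h
    · simp only [Sum.map_inl] at h
      obtain ⟨e1, u, hu, e2⟩ := ih _ _ h
      refine ⟨e1, u, hu, ?_⟩
      rw [← e2]
      simp
    · simp at h

/-- scanning a translucent word -/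
theorem beh_word (q : Q) {t : List (Fin s)} (ht : t ∈ A.tau q) : ∀ (r p : List (Fin s))
    (hp : p ∈ A.pfx), r ≠ [] → p ++ r = t →
    A.sm.beh r (A.nn (q, ⟨p, hp⟩)) = Sum.inl (A.nn (A.root q)) := by
  intro r
  induction r with
  | nil => intro p hp h; exact absurd rfl h
  | cons a r ih =>
    intro p hp _ hpr
    have hpre : p ++ [a] <+: t := ⟨r, by rw [← hpr]; simp⟩
    rw [SM.beh]
    unfold SM.comp
    rw [A.sm_g]
    unfold scan
    by_cases hr : r = []
    · subst hr
      rw [if_pos (by rw [hpr]; exact ht)]
      rfl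
    · have hne : p ++ [a] ∉ A.tau q := by
        intro hcon
        have h1 := A.prefix_tau q _ hcon _ ht hpre
        rw [← h1] at hpr
        have h2 := congrArg List.length hpr
        simp only [List.length_append, List.length_cons, List.length_nil] at h2
        exact hr (List.length_eq_zero_iff.1 (by omega))
      rw [if_neg hne, if_neg, dif_pos ⟨A.mem_pfx ht hpre, t, ht, hpre⟩]
      · simp only [Sum.map_inl]
        exact ih _ _ hr (by rw [← hpr]; simp)
      · rintro ⟨h1, h2⟩
        simp only at h1 h2
        obtain ⟨q', hq'⟩ := Option.ne_none_iff_exists'.1 h2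
        refine A.prefix_delta q a q' hq' t ht ?_
        rw [h1] at hpre
        simpa using hpre

theorem beh_star {q : Q} {u : List (Fin s)} (hu : A.Star q u) :
    A.sm.beh u (A.nn (A.root q)) = Sum.inl (A.nn (A.root q)) := by
  obtain ⟨L, rfl, hL⟩ := hu
  induction L with
  | nil => rfl
  | cons t L ih =>
    rw [List.flatten_cons, SM.beh_append]
    unfold SM.comp
    have h1 : t ∈ A.tau q := hL t (by simp)
    have h2 : t ≠ [] := by
      rintro rfl
      exact A.nil_notMem q h1
    have h3 := A.beh_word q h1 t [] A.nil_mem h2 rfl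
    rw [show A.root q = (q, ⟨[], A.nil_mem⟩) from rfl] at *
    rw [h3]
    exact ih fun y hy => hL y (by simp [hy])

theorem reject_stuck {c : Conf Q s} (h : Relation.ReflTransGen A.Step .reject c) :
    c = .reject := by
  induction h with
  | refl => rfl
  | tail _ h1 ih => subst ih; cases h1

theorem acc_of {x : Fin A.sm.K} {w : List (Fin s)} (h : A.sm.Acc x w) : ∀ q,
    x = A.nn (A.root q) → Relation.ReflTransGen A.Step (.run q w) .accept := by
  induction h with
  | fin x y w h1 h2 =>
    rintro q rfl
    obtain ⟨y, rfl⟩ := A.nn_surj y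
    obtain ⟨h3, h4⟩ := (A.sm_fin y).1 h2
    obtain ⟨e1, u, hu, e2⟩ := A.beh_sound _ _ _ h1
    refine Relation.ReflTransGen.single (Step.accept q w ?_ ?_)
    · rw [h3] at e2
      have : w = u := by simpa [root] using e2
      rw [this]
      exact hu
    · rw [e1] at h4
      exact h4
  | del x y u v a h1 h2 _ ih =>
    rintro q rfl
    obtain ⟨y, rfl⟩ := A.nn_surj y
    obtain ⟨e1, u', hu, e2⟩ := A.beh_sound _ _ _ h1
    rw [A.sm_g] at h2
    unfold scan at h2
    by_cases h3 : (y.2 : List (Fin s)) ++ [a] ∈ A.tau y.1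
    · rw [if_pos h3] at h2; cases h2
    rw [if_neg h3] at h2
    by_cases h4 : (y.2 : List (Fin s)) = [] ∧ A.delta y.1 a ≠ none
    · obtain ⟨q', hq'⟩ := Option.ne_none_iff_exists'.1 h4.2
      rw [h4.1] at e2
      have hu2 : u = u' := by simpa [root] using e2
      have e1' : y.1 = q := e1
      rw [e1'] at hq'
      refine Relation.ReflTransGen.head (Step.read q q' u v a ?_ hq') (ih q' ?_)
      · rw [hu2]; exact hu
      · rw [A.sm_nx]
        unfold next
        rw [e1', hq']
    · exfalso
      rw [if_neg h4] at h2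
      split_ifs at h2 <;> cases h2

theorem of_acc {c : Conf Q s} (h : Relation.ReflTransGen A.Step c .accept) : ∀ q w,
    c = .run q w → A.sm.Acc (A.nn (A.root q)) w := by
  induction h using Relation.ReflTransGen.head_induction_on with
  | refl => intro q w h; cases h
  | head h1 h2 ih =>
    rintro q w rfl
    cases h1 with
    | read q q' u v a hu hd =>
      refine SM.Acc.del (A.nn (A.root q)) (A.nn (A.root q)) u v a (A.beh_star hu) ?_ ?_
      · rw [A.sm_g]
        unfold scan
        have h3 : ((A.root q).2 : List (Fin s)) ++ [a] ∉ A.tau (A.root q).1 := by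
          intro hcon
          exact A.prefix_delta q a q' hd [a] hcon (List.prefix_refl _)
        rw [if_neg h3, if_pos ⟨rfl, by
          change A.delta q a ≠ none
          rw [hd]; simp⟩]
        rfl
      · rw [A.sm_nx]
        unfold next
        have : A.delta (A.root q).1 a = some q' := hd
        rw [this]
        exact ih q' _ rfl
    | stuck q u v a _ _ _ => exact absurd (A.reject_stuck h2) (by simp)
    | accept q w hw hq =>
      exact SM.Acc.fin (A.nn (A.root q)) (A.nn (A.root q)) w (A.beh_star hw)
        ((A.sm_fin _).2 ⟨rfl, hq⟩)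
    | reject q w _ _ => exact absurd (A.reject_stuck h2) (by simp)

theorem acc_iff (w : List (Fin s)) : A.sm.Acc (A.nn (A.root A.init)) w ↔ w ∈ A.language :=
  ⟨fun h => A.acc_of h _ rfl, fun h => A.of_acc h _ _ rfl⟩

end DFAwtw

end Pool.Agent.X247.TW
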