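import Pool.Agent.X247.TW.Prog

/-!
# The main loop
-/

namespace Pool.Agent.X247.TW

open Pool.Agent.H672R2.Ram

variable {s : ℕ} (A : SM (Fin s))

/-- the invariant of the main loop -/
structure I4 (n : ℕ) (w : ℕ → Fin s) (H : ℕ) (l : ℕ → A.Beh) (m : Mem) : Prop where
  tabs : Tabs A n w m
  h2 : m.v 2 = H
  seg : ∀ h ≤ H, ∀ j, m.a 1 h j = A.cd (A.seg l h j)

theorem I4.congr {A : SM (Fin s)} {n : ℕ} {w : ℕ → Fin s} {H : ℕ} {l : ℕ → A.Beh} {m m' : Mem}
    (h : I4 A n w H l m) (h0 : m'.v 0 = m.v 0) (h2 : m'.v 2 = m.v 2) (ha : m'.a = m.a) :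
    I4 A n w H l m' where
  tabs := h.tabs.congr h0 fun r _ => by rw [ha]
  h2 := h2.trans h.h2
  seg := by rw [ha]; exact h.seg

/-- one step down -/
def downB : Prog :=
  .seq (.assign 7 (.sub (.reg 7) (.lit 1))) (.seq (.assign 5 (.get 4 (.lit 0) (.reg 5)))
    (.seq (.assign 8 (.get 3 (.get 1 (.reg 7) (.reg 5)) (.reg 10)))
      (.ite (.eq (.reg 8) (.lit 0)) .skip
        (.seq (.assign 10 (.sub (.reg 8) (.lit 2))) (.assign 5 (.succ (.reg 5)))))))

/-- the way down -/
def down : Prog := .loop (.lt (.lit 0) (.reg 7)) downB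

/-- the invariant on the way down -/
structure ID (n : ℕ) (w : ℕ → Fin s) (H : ℕ) (l : ℕ → A.Beh) (x : Fin A.K) (hh : ℕ) (m : Mem) :
    Prop where
  i4 : I4 A n w H l m
  hle : hh ≤ H
  h7 : m.v 7 = hh
  h9 : m.v 9 = 1
  ex : ∃ c : Fin A.K, m.v 10 = c ∧ A.pre l (m.v 5 * 2 ^ hh) x = Sum.inl c ∧
    A.seg l hh (m.v 5) c = Sum.inr true

theorem ok_down {n : ℕ} {w : ℕ → Fin s} {H : ℕ} {l : ℕ → A.Beh} {x : Fin A.K} {m : Mem}
    (hl : ∀ j, n ≤ j → l j = A.triv) (h : ID A n w H l x H m) :
    Ok down m (30 * (H + 1)) (ID A n w H l x 0) := by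
  unfold down
  refine (ok_loop (c := 25) (k := H) (fun k m => ID A n w H l x k m) ?_ _ h).weaken
    (by simp only [Expr.cost, Test.cost]; omega) fun _ h => h
  rintro k m' hI
  simp only [Test.holds, Expr.eval, hI.h7]
  by_cases hk : k = 0
  · subst hk
    exact Or.inl ⟨by omega, hI⟩
  · refine Or.inr ⟨by omega, k - 1, by omega, ?_⟩
    obtain ⟨k, rfl⟩ : ∃ k', k = k' + 1 := ⟨k - 1, by omega⟩
    rw [Nat.add_sub_cancel]
    obtain ⟨c, hc, hpre, hseg⟩ := hI.ex
    have hvn : m'.v 5 * 2 ^ (k + 1) < n := by
      by_contra hcon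
      rw [A.seg_triv' hl (k + 1) (m'.v 5) (by omega)] at hseg
      cases hseg
    have hvn2 : m'.v 5 ≤ n + 1 := by
      have : m'.v 5 * 1 ≤ m'.v 5 * 2 ^ (k + 1) := Nat.mul_le_mul_left _ Nat.one_le_two_pow
      omega
    have hdbl : m'.a 4 0 (m'.v 5) = 2 * m'.v 5 := hI.i4.tabs.dbl _ hvn2
    have hT : m'.a 1 k (2 * m'.v 5) = A.cd (A.seg l k (2 * m'.v 5)) := hI.i4.seg k
      (by have := hI.hle; omega) _
    have hact : m'.a 3 (A.cd (A.seg l k (2 * m'.v 5))) c = SM.oc (A.seg l k (2 * m'.v 5) c) :=
      hI.i4.tabs.base.act _ _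
    have e2 : 2 * m'.v 5 * 2 ^ k = m'.v 5 * 2 ^ (k + 1) := by rw [pow_succ]; ring
    unfold downB
    refine (ok_assign_seq (ok_assign_seq (ok_assign_seq (ok_ite (c := 7) ?_ ?_)))).weaken
      (by simp [Expr.cost, Test.cost]) fun _ h => h
    · intro ht
      simp [Test.holds, Expr.eval, hI.h7, hc, hdbl, hT, hact] at ht
      refine (ok_skip ?_).weaken (by omega) fun _ h => h
      constructor
      · exact hI.i4.congr (by simp) (by simp) (by simp)
      · have := hI.hle; omega
      · simp [Expr.eval, hI.h7]
      · simp [hI.h9]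
      · refine ⟨c, by simp [hc], ?_, ?_⟩
        · simp [Expr.eval, hdbl, e2, hpre]
        · simp [Expr.eval, hdbl]
          cases hb : A.seg l k (2 * m'.v 5) c with
          | inl y => rw [hb] at ht; simp [SM.oc] at ht
          | inr o =>
            cases o with
            | true => rfl
            | false => rw [hb] at ht; simp [SM.oc] at ht
    · intro ht
      simp [Test.holds, Expr.eval, hI.h7, hc, hdbl, hT, hact] at ht
      rw [SM.seg] at hseg
      unfold SM.comp at hseg
      cases hb : A.seg l k (2 * m'.v 5) c with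
      | inl y =>
        rw [hb] at hseg hact
        refine (ok_assign_seq (ok_assign ?_)).weaken (by simp [Expr.cost]) fun _ h => h
        constructor
        · exact hI.i4.congr (by simp) (by simp) (by simp)
        · have := hI.hle; omega
        · simp [Expr.eval, hI.h7]
        · simp [hI.h9]
        · refine ⟨y, ?_, ?_, ?_⟩
          · simp [Expr.eval, hI.h7, hc, hdbl, hT, hact, SM.oc]
          · simp [Expr.eval, hdbl]
            rw [A.pre_seg, e2]
            unfold SM.comp
            rw [hpre]
            simpa using hb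
          · simp [Expr.eval, hdbl]
            exact hseg
      | inr o =>
        rw [hb] at hseg ht
        simp only [Sum.inr.injEq] at hseg
        subst hseg
        simp [SM.oc] at ht

/-- one step up -/
def upB : Prog :=
  .seq (.assign 5 (.get 5 (.lit 0) (.reg 5)))
    (.seq (.store 1 (.succ (.reg 7)) (.reg 5)
      (.get 2 (.get 1 (.reg 7) (.get 4 (.lit 0) (.reg 5)))
        (.get 1 (.reg 7) (.succ (.get 4 (.lit 0) (.reg 5))))))
      (.assign 7 (.succ (.reg 7))))

/-- the way up -/
def up : Prog := .loop (.lt (.reg 7) (.reg 2)) upB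

/-- the invariant on the way up -/
structure IU (n : ℕ) (w : ℕ → Fin s) (H : ℕ) (l l' : ℕ → A.Beh) (j c hh : ℕ) (m : Mem) :
    Prop where
  tabs : Tabs A n w m
  h2 : m.v 2 = H
  h5 : m.v 5 = j / 2 ^ hh
  h6 : m.v 6 = c
  h7 : m.v 7 = hh
  h9 : m.v 9 = 1
  seg : ∀ h ≤ H, ∀ i, m.a 1 h i = A.cd (A.seg (if h ≤ hh then l' else l) h i)

theorem ok_up {n : ℕ} {w : ℕ → Fin s} {H : ℕ} {l : ℕ → A.Beh} {j c : ℕ} {b : A.Beh} {m : Mem}
    (hj : j < n) (h : IU A n w H l (Function.update l j b) j c 0 m) :
    Ok up m (40 * (H + 1)) (IU A n w H l (Function.update l j b) j c H) := by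
  unfold up
  refine (ok_for (c := 30) (n := H) (IU A n w H l (Function.update l j b) j c) ?_ ?_ m 0
    (by omega) h).weaken (by simp only [Expr.cost, Test.cost]; omega) fun _ h => h
  · intro i m' h
    exact ⟨h.h7, by simp [Expr.eval, h.h2]⟩
  · intro i m' hi h
    unfold upB
    have e1 : j / 2 ^ (i + 1) = j / 2 ^ i / 2 := by rw [pow_succ, Nat.div_div_eq_div_mul]
    have hle : j / 2 ^ i ≤ j := Nat.div_le_self _ _
    have hhalf : m'.a 5 0 (j / 2 ^ i) = j / 2 ^ (i + 1) := by
      rw [h.tabs.half _ (by omega), e1]
    have hdbl : m'.a 4 0 (j / 2 ^ (i + 1)) = 2 * (j / 2 ^ (i + 1)) :=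
      h.tabs.dbl _ (by rw [e1]; omega)
    refine (ok_assign_seq (ok_store_seq (ok_assign ?_))).weaken (by simp [Expr.cost])
      fun _ h => h
    constructor
    · exact h.tabs.congr (by simp) fun r hr => by funext i' j'; simp [hr]
    · simp [h.h2]
    · simp [Expr.eval, h.h5, hhalf]
    · simp [h.h6]
    · simp [Expr.eval, h.h7]
    · simp [h.h9]
    · intro h' hh' i'
      simp only [Expr.eval, setV_a, setV_v, setA_a, setA_v, if_true,
        if_neg (show (7 : ℕ) ≠ 5 by omega), h.h7, h.h5, hhalf, hdbl, true_and]
      by_cases h1 : h' = i + 1 ∧ i' = j / 2 ^ (i + 1)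
      · rw [if_pos h1, if_pos (by omega), h.seg i (by omega), h.seg i (by omega),
          if_pos le_rfl, h.tabs.base.mul, h1.1, h1.2]
        rfl
      · rw [if_neg h1, h.seg h' hh']
        by_cases h2 : h' ≤ i
        · rw [if_pos h2, if_pos (by omega)]
        · rw [if_neg h2]
          by_cases h3 : h' ≤ i + 1
          · rw [if_pos h3]
            have h4 : h' = i + 1 := by omega
            rw [h4, A.seg_update l j b (i + 1) i' (by omega)]
          · rw [if_neg h3]

/-- the body of the main loop -/
def mainB : Prog :=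
  .seq (.assign 8 (.get 3 (.get 1 (.reg 2) (.lit 0)) (.reg 6)))
    (.ite (.eq (.reg 8) (.lit 0))
      (.seq (.assign 7 (.reg 2)) (.seq (.assign 5 (.lit 0)) (.seq (.assign 10 (.reg 6))
        (.seq down
          (.seq (.assign 6 (.get 6 (.reg 10) (.get 0 (.lit 0) (.reg 5))))
            (.seq (.store 1 (.lit 0) (.reg 5) (.lit 0))
              (.seq (.assign 7 (.lit 0)) up)))))))
      (.seq (.assign 9 (.lit 0))
        (.ite (.eq (.reg 8) (.lit 1)) (.assign 1 (.lit 0))
          (.assign 1 (.get 7 (.lit 0) (.sub (.reg 8) (.lit 2)))))))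

/-- the main loop -/
def mainP : Prog := .loop (.eq (.reg 9) (.lit 1)) mainB

/-- the invariant of the main loop -/
def IM (n : ℕ) (w : ℕ → Fin s) (H : ℕ) (res : Prop) (k : ℕ) (m : Mem) : Prop :=
  (m.v 9 = 1 ∧ ∃ (keep : ℕ → Bool) (x : Fin A.K), k = (SM.cur w keep n).length + 1 ∧
    m.v 6 = x ∧ I4 A n w H (A.leaf w n keep) m ∧ (A.Acc x (SM.cur w keep n) ↔ res)) ∨
  (m.v 9 = 0 ∧ (m.v 1 = 1 ↔ res))

theorem ok_main {n : ℕ} {w : ℕ → Fin s} {H : ℕ} {res : Prop} (hH : n ≤ 2 ^ H) {k : ℕ} {m : Mem}
    (h : IM A n w H res k m) :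
    Ok mainP m (k * (150 * (H + 1)) + 3) (fun m' => m'.v 1 = 1 ↔ res) := by
  unfold mainP
  refine (ok_loop (c := 140 * (H + 1)) (fun k m => IM A n w H res k m) ?_ k m h).weaken ?_
    fun _ h => h
  · rintro k m' (⟨h9, keep, x, hk, h6, hI, hres⟩ | ⟨h9, hres⟩)
    · right
      refine ⟨by simp [Test.holds, Expr.eval, h9], k - 1, by omega, ?_⟩
      have hk' : k - 1 = (SM.cur w keep n).length := by omega
      rw [hk']
      have hl : ∀ j, n ≤ j → A.leaf w n keep j = A.triv := fun j hj => by
        unfold SM.leaf
        rw [if_neg (by omega)]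
      have hroot : A.seg (A.leaf w n keep) H 0 = A.beh (SM.cur w keep n) := by
        have h1 := A.pre_seg (A.leaf w n keep) H 0
        rw [Nat.zero_add, Nat.one_mul, Nat.zero_mul, A.pre_stable hl _ hH,
          A.pre_leaf w n keep n le_rfl] at h1
        rw [h1]
        rfl
      have hT : m'.a 1 H 0 = A.cd (A.beh (SM.cur w keep n)) := by rw [hI.seg H le_rfl, hroot]
      have hact : m'.a 3 (A.cd (A.beh (SM.cur w keep n))) x =
          SM.oc (A.beh (SM.cur w keep n) x) := hI.tabs.base.act _ _
      unfold mainB
      refine (ok_assign_seq (ok_ite (c := 130 * (H + 1)) ?_ ?_)).weaken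
        (by simp [Expr.cost, Test.cost]; omega) fun _ h => h
      · intro ht
        simp [Test.holds, Expr.eval, hI.h2, h6, hT, hact] at ht
        have hb : A.beh (SM.cur w keep n) x = Sum.inr true := by
          cases hb : A.beh (SM.cur w keep n) x with
          | inl y => rw [hb] at ht; simp [SM.oc] at ht
          | inr o =>
            cases o with
            | true => rfl
            | false => rw [hb] at ht; simp [SM.oc] at ht
        refine (ok_assign_seq (ok_assign_seq (ok_assign_seq (ok_seq (c := 30 * (H + 1))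
          (d := 60 * (H + 1)) (ok_down A (w := w) hl (x := x) ?_) ?_)))).weaken ?_ fun _ h => h
        · constructor
          · exact hI.congr (by simp) (by simp) (by simp)
          · exact le_rfl
          · simp [Expr.eval, hI.h2]
          · simp [h9]
          · refine ⟨x, by simp [Expr.eval, h6], ?_, ?_⟩
            · simp [Expr.eval, SM.pre, SM.triv]
            · simp [Expr.eval, hroot, hb]
        · intro m2 hD
          obtain ⟨c, h10, hpre, hseg⟩ := hD.ex
          rw [pow_zero, Nat.mul_one] at hpre
          change A.leaf w n keep (m2.v 5) c = Sum.inr true at hseg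
          have hj : m2.v 5 < n ∧ keep (m2.v 5) = true := by
            by_contra hcon
            unfold SM.leaf at hseg
            rw [if_neg hcon] at hseg
            cases hseg
          have hg : A.g (w (m2.v 5)) c = Sum.inr true := by
            unfold SM.leaf at hseg
            rwa [if_pos hj] at hseg
          generalize hjj : m2.v 5 = j at *
          rw [A.pre_leaf w n keep j (by omega)] at hpre
          obtain ⟨v, hv1, hv2⟩ := SM.cur_split (w := w) hj.1 hj.2
          refine (ok_assign_seq (ok_store_seq (ok_assign_seq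
            ((ok_up A (n := n) (w := w) (H := H) (l := A.leaf w n keep) (j := j)
              (c := A.nx c (w j)) (b := A.triv) hj.1 ?_).weaken le_rfl
              (Q' := IM A n w H res (SM.cur w keep n).length) ?_)))).weaken
            (by simp [Expr.cost]; omega) fun _ h => h
          · have e0 : m2.a 0 0 j = w j := hD.i4.tabs.base.inp j hj.1
            have e1 : m2.a 6 c (w j) = A.nx c (w j) := hD.i4.tabs.base.nx _ _
            constructor
            · exact hD.i4.tabs.congr (by simp) fun r hr => by funext i' j'; simp [hr]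
            · simp [hD.i4.h2]
            · simp [hjj]
            · simp [Expr.eval, h10, hjj, e0, e1]
            · simp [Expr.eval]
            · simp [hD.h9]
            · intro h' hh' i'
              simp only [Expr.eval, setV_a, setV_v, setA_a, setA_v, true_and,
                if_neg (show (5 : ℕ) ≠ 6 by omega), hjj]
              by_cases h1 : h' = 0 ∧ i' = j
              · rw [if_pos h1, if_pos (by omega), h1.1, h1.2, SM.seg, Function.update_self,
                  A.cd_triv]
              · rw [if_neg h1, hD.i4.seg h' hh']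
                by_cases h2 : h' ≤ 0
                · have h3 : h' = 0 := by omega
                  rw [if_pos h2, h3, SM.seg, SM.seg, Function.update_of_ne (by omega)]
                · rw [if_neg h2]
          · intro m3 hU
            left
            refine ⟨hU.h9, Function.update keep j false, A.nx c (w j), ?_, hU.h6, ?_, ?_⟩
            · rw [hv1, hv2]
              simp only [List.length_append, List.length_cons]
              omega
            · constructor
              · exact hU.tabs
              · exact hU.h2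
              · intro h' hh' i'
                rw [hU.seg h' hh' i', if_pos hh', A.leaf_update]
            · rw [hv2, ← A.acc_del hpre hg, ← hv1]
              exact hres
        · simp [Expr.cost]; omega
      · intro ht
        simp [Test.holds, Expr.eval, hI.h2, h6, hT, hact] at ht
        refine (ok_assign_seq (ok_ite (c := 6) ?_ ?_)).weaken (by simp [Expr.cost, Test.cost]; omega)
          fun _ h => h
        · intro ht2
          simp [Test.holds, Expr.eval, hI.h2, h6, hT, hact] at ht2
          refine (ok_assign ?_).weaken (by simp [Expr.cost]) fun _ h => h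
          right
          refine ⟨by simp [Expr.eval], ?_⟩
          have hb : A.beh (SM.cur w keep n) x = Sum.inr false := by
            cases hb : A.beh (SM.cur w keep n) x with
            | inl y => rw [hb] at ht2; simp [SM.oc] at ht2
            | inr o =>
              cases o with
              | false => rfl
              | true => rw [hb] at ht2; simp [SM.oc] at ht2
          rw [← hres]
          simp only [setV_v, Expr.eval]
          constructor
          · intro h; simp at h
          · intro h; exact absurd h (A.acc_rej hb)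
        · intro ht2
          simp [Test.holds, Expr.eval, hI.h2, h6, hT, hact] at ht2
          refine (ok_assign ?_).weaken (by simp [Expr.cost]) fun _ h => h
          right
          refine ⟨by simp [Expr.eval], ?_⟩
          cases hb : A.beh (SM.cur w keep n) x with
          | inr o =>
            rw [hb] at ht ht2
            cases o with
            | false => simp [SM.oc] at ht2
            | true => simp [SM.oc] at ht
          | inl y =>
            have e0 : m'.a 7 0 y = if A.fin y = true then 1 else 0 := hI.tabs.base.fin y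
            rw [← hres, A.acc_cont hb]
            simp [Expr.eval, hI.h2, h6, hT, hact, hb, SM.oc, e0]
    · left
      exact ⟨by simp [Test.holds, Expr.eval, h9], hres⟩
  · simp only [Expr.cost, Test.cost]
    have : k * (1 + 1 + 1 + 140 * (H + 1)) ≤ k * (150 * (H + 1)) := Nat.mul_le_mul_left _ (by omega)
    omega

end Pool.Agent.X247.TW
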