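import Mathlib

/-!
# Scanning machines: finite automata which repeatedly delete a letter and restart
-/

namespace Pool.Agent.X247.TW

/-- A scanning machine: `g a x` is the new scanning state (`inl`), or the letter is to be deleted
(`inr true`), or the word is rejected (`inr false`). -/
structure SM (S : Type) where
  /-- number of scanning states -/
  K : ℕ
  /-- the transition function -/
  g : S → Fin K → Fin K ⊕ Bool
  /-- the scanning state at the left end after a deletion -/
  nx : Fin K → S → Fin K
  /-- acceptance at the right end -/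
  fin : Fin K → Bool

namespace SM

variable {S : Type} (A : SM S)

/-- behaviours -/
abbrev Beh : Type := Fin A.K → Fin A.K ⊕ Bool

/-- composition of behaviours -/
def comp (b b' : A.Beh) : A.Beh := fun x =>
  match b x with
  | Sum.inl y => b' y
  | Sum.inr o => Sum.inr o

/-- the trivial behaviour -/
def triv : A.Beh := fun x => Sum.inl x

theorem comp_assoc (a b c : A.Beh) : A.comp (A.comp a b) c = A.comp a (A.comp b c) := by
  funext x
  unfold comp
  cases a x <;> rfl

theorem triv_comp (a : A.Beh) : A.comp A.triv a = a := rfl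

theorem comp_triv (a : A.Beh) : A.comp a A.triv = a := by
  funext x
  unfold comp triv
  cases a x <;> rfl

/-- the behaviour of a word -/
def beh : List S → A.Beh
  | [] => A.triv
  | a :: w => A.comp (A.g a) (beh w)

theorem beh_append (u v : List S) : A.beh (u ++ v) = A.comp (A.beh u) (A.beh v) := by
  induction u with
  | nil => rfl
  | cons a u ih => rw [List.cons_append, beh, beh, ih, comp_assoc]

theorem beh_single (a : S) : A.beh [a] = A.g a := A.comp_triv _

/-- acceptance -/
inductive Acc : Fin A.K → List S → Prop
  | fin (x y : Fin A.K) (w : List S) : A.beh w x = Sum.inl y → A.fin y = true → Acc x w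
  | del (x y : Fin A.K) (u v : List S) (a : S) : A.beh u x = Sum.inl y → A.g a y = Sum.inr true →
      Acc (A.nx y a) (u ++ v) → Acc x (u ++ a :: v)

theorem beh_del {x y : Fin A.K} {u v : List S} {a : S} {o : Bool} (h1 : A.beh u x = Sum.inl y)
    (h2 : A.g a y = Sum.inr o) : A.beh (u ++ a :: v) x = Sum.inr o := by
  rw [beh_append, beh]
  unfold comp
  rw [h1]
  simp only [h2]

theorem acc_cont {x y : Fin A.K} {w : List S} (h : A.beh w x = Sum.inl y) :
    A.Acc x w ↔ A.fin y = true := by
  constructor
  · intro h2
    cases h2 with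
    | fin _ z _ h3 h4 => rw [h] at h3; cases h3; exact h4
    | del _ z u v a h3 h4 _ => rw [A.beh_del h3 h4] at h; cases h
  · exact Acc.fin x y w h

theorem acc_rej {x : Fin A.K} {w : List S} (h : A.beh w x = Sum.inr false) : ¬ A.Acc x w := by
  intro h2
  cases h2 with
  | fin _ z _ h3 h4 => rw [h] at h3; cases h3
  | del _ z u v a h3 h4 _ => rw [A.beh_del h3 h4] at h; cases h

theorem beh_prefix_inl {x y : Fin A.K} {u v : List S} (h : A.beh (u ++ v) x = Sum.inl y) :
    ∃ z, A.beh u x = Sum.inl z := by
  rw [beh_append] at h
  unfold comp at h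
  cases h2 : A.beh u x with
  | inl z => exact ⟨z, rfl⟩
  | inr o => rw [h2] at h; cases h

theorem acc_del {x y : Fin A.K} {u v : List S} {a : S} (h1 : A.beh u x = Sum.inl y)
    (h2 : A.g a y = Sum.inr true) : A.Acc x (u ++ a :: v) ↔ A.Acc (A.nx y a) (u ++ v) := by
  constructor
  · intro h
    generalize hw : u ++ a :: v = w at h
    cases h with
    | fin _ z _ h3 h4 => rw [← hw, A.beh_del h1 h2] at h3; cases h3
    | del _ z u' v' a' h3 h4 h5 =>
      -- the position of the deletion is unique
      have hlen : u = u' := by
        rcases List.append_eq_append_iff.1 hw with ⟨t, e1, e2⟩ | ⟨t, e1, e2⟩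
        · cases t with
          | nil => rw [List.append_nil] at e1; exact e1.symm
          | cons b t =>
            exfalso
            rw [List.cons_append, List.cons.injEq] at e2
            rw [e1, ← e2.1, A.beh_del h1 h2] at h3
            cases h3
        · cases t with
          | nil => rw [List.append_nil] at e1; exact e1
          | cons b t =>
            exfalso
            rw [List.cons_append, List.cons.injEq] at e2
            rw [e1, ← e2.1, A.beh_del h3 h4] at h1
            cases h1
      subst hlen
      have h6 := List.append_cancel_left hw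
      rw [List.cons.injEq] at h6
      obtain ⟨rfl, rfl⟩ := h6
      rw [h1] at h3
      cases h3
      exact h5
  · exact Acc.del x y u v a h1 h2

/-! ### Codes of behaviours -/

/-- the number of behaviours -/
def NB : ℕ := Fintype.card A.Beh

instance : Nonempty A.Beh := ⟨A.triv⟩

theorem NB_pos : 0 < A.NB := Fintype.card_pos

/-- the codes; the trivial behaviour has the code `0` -/
noncomputable def codeE : A.Beh ≃ Fin A.NB :=
  (Fintype.equivFin A.Beh).trans (Equiv.swap (Fintype.equivFin A.Beh A.triv) ⟨0, A.NB_pos⟩)

/-- the code of a behaviour -/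
noncomputable def cd (b : A.Beh) : ℕ := A.codeE b

/-- the behaviour with a given code -/
noncomputable def dc (i : ℕ) : A.Beh := if h : i < A.NB then A.codeE.symm ⟨i, h⟩ else A.triv

theorem cd_lt (b : A.Beh) : A.cd b < A.NB := (A.codeE b).2

theorem dc_cd (b : A.Beh) : A.dc (A.cd b) = b := by
  unfold dc
  rw [dif_pos (A.cd_lt b)]
  exact A.codeE.symm_apply_apply b

theorem codeE_triv : A.codeE A.triv = ⟨0, A.NB_pos⟩ := by
  unfold codeE
  exact Equiv.swap_apply_left _ _

theorem cd_triv : A.cd A.triv = 0 := by
  unfold cd
  rw [codeE_triv]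

/-- table of composition -/
noncomputable def mulT (i j : ℕ) : ℕ := A.cd (A.comp (A.dc i) (A.dc j))

theorem mulT_cd (b b' : A.Beh) : A.mulT (A.cd b) (A.cd b') = A.cd (A.comp b b') := by
  unfold mulT
  rw [dc_cd, dc_cd]

/-- table of application: `0` deletion, `1` rejection, `y + 2` the new state `y` -/
noncomputable def actT (i c : ℕ) : ℕ :=
  if h : c < A.K then
    match A.dc i ⟨c, h⟩ with
    | Sum.inl y => (y : ℕ) + 2
    | Sum.inr true => 0
    | Sum.inr false => 1
  else 0

/-- code of an outcome -/
def oc {K : ℕ} : Fin K ⊕ Bool → ℕ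
  | Sum.inl y => (y : ℕ) + 2
  | Sum.inr true => 0
  | Sum.inr false => 1

theorem actT_cd (b : A.Beh) (x : Fin A.K) : A.actT (A.cd b) x = oc (b x) := by
  unfold actT
  rw [dif_pos x.2, dc_cd]
  change (match b x with
    | Sum.inl y => (y : ℕ) + 2
    | Sum.inr true => 0
    | Sum.inr false => 1) = oc (b x)
  rcases b x with y | (_ | _) <;> rfl

/-! ### Segment trees -/

/-- the behaviour of the segment `[i 2^h, (i+1) 2^h)` -/
def seg (l : ℕ → A.Beh) : ℕ → ℕ → A.Beh
  | 0, i => l i
  | h + 1, i => A.comp (seg l h (2 * i)) (seg l h (2 * i + 1))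

/-- the behaviour of the segment `[0, j)` -/
def pre (l : ℕ → A.Beh) : ℕ → A.Beh
  | 0 => A.triv
  | j + 1 => A.comp (pre l j) (l j)

theorem pre_seg (l : ℕ → A.Beh) : ∀ h i, A.pre l ((i + 1) * 2 ^ h) =
    A.comp (A.pre l (i * 2 ^ h)) (A.seg l h i) := by
  intro h
  induction h with
  | zero => intro i; simp [pre, seg]
  | succ h ih =>
    intro i
    have e1 : (i + 1) * 2 ^ (h + 1) = ((2 * i + 1) + 1) * 2 ^ h := by rw [pow_succ]; ring
    have e2 : i * 2 ^ (h + 1) = (2 * i) * 2 ^ h := by rw [pow_succ]; ring
    rw [e1, ih, ih, e2, seg, comp_assoc]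

theorem seg_triv {l : ℕ → A.Beh} {n : ℕ} (hl : ∀ j, n ≤ j → l j = A.triv) :
    ∀ h i, n ≤ i → A.seg l h i = A.triv := by
  intro h
  induction h with
  | zero => intro i hi; exact hl i hi
  | succ h ih =>
    intro i hi
    rw [seg, ih _ (by omega), ih _ (by omega), triv_comp]

theorem seg_triv' {l : ℕ → A.Beh} {n : ℕ} (hl : ∀ j, n ≤ j → l j = A.triv) :
    ∀ h i, n ≤ i * 2 ^ h → A.seg l h i = A.triv := by
  intro h
  induction h with
  | zero => intro i hi; exact hl i (by simpa using hi)
  | succ h ih =>
    intro i hi
    have e : i * 2 ^ (h + 1) = 2 * i * 2 ^ h := by rw [pow_succ]; ring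
    have e2 : (2 * i + 1) * 2 ^ h = 2 * i * 2 ^ h + 2 ^ h := by ring
    rw [e] at hi
    rw [seg, ih _ hi, ih _ (hi.trans (by rw [e2]; exact Nat.le_add_right _ _)), triv_comp]

theorem pre_stable {l : ℕ → A.Beh} {n : ℕ} (hl : ∀ j, n ≤ j → l j = A.triv) :
    ∀ j, n ≤ j → A.pre l j = A.pre l n := by
  intro j hj
  induction hj with
  | refl => rfl
  | @step j hj ih => rw [pre, hl _ hj, comp_triv, ih]

/-- changing one leaf -/
theorem seg_update (l : ℕ → A.Beh) (j : ℕ) (b : A.Beh) : ∀ h i, i ≠ j / 2 ^ h →
    A.seg (Function.update l j b) h i = A.seg l h i := by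
  intro h
  induction h with
  | zero =>
    intro i hi
    have : i ≠ j := by simpa using hi
    simp [seg, Function.update_of_ne this]
  | succ h ih =>
    intro i hi
    have e : j / 2 ^ (h + 1) = j / 2 ^ h / 2 := by rw [pow_succ, Nat.div_div_eq_div_mul]
    rw [e] at hi
    rw [seg, seg, ih _ (by omega), ih _ (by omega)]

/-! ### The current word -/

/-- the leaf behaviours, when the letters in `keep` are left -/
def leaf (w : ℕ → S) (n : ℕ) (keep : ℕ → Bool) (j : ℕ) : A.Beh :=
  if j < n ∧ keep j = true then A.g (w j) else A.triv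

/-- the letters that are left among the first `j` -/
def cur (w : ℕ → S) (keep : ℕ → Bool) (j : ℕ) : List S :=
  ((List.range j).filter keep).map w

theorem pre_leaf (w : ℕ → S) (n : ℕ) (keep : ℕ → Bool) : ∀ j ≤ n,
    A.pre (A.leaf w n keep) j = A.beh (cur w keep j) := by
  intro j
  induction j with
  | zero => intro _; rfl
  | succ j ih =>
    intro hj
    rw [pre, ih (by omega)]
    unfold cur leaf
    rw [List.range_succ, List.filter_append, List.map_append, beh_append]
    congr 1
    cases hk : keep j with
    | true => simp [hk, beh_single, show j < n from hj]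
    | false => simp [hk, beh]

theorem cur_split {w : ℕ → S} {keep : ℕ → Bool} {j n : ℕ} (hj : j < n) (hk : keep j = true) :
    ∃ v, cur w keep n = cur w keep j ++ w j :: v ∧
      cur w (Function.update keep j false) n = cur w keep j ++ v := by
  have key : ∀ d, ∃ v, cur w keep (j + 1 + d) = cur w keep j ++ w j :: v ∧
      cur w (Function.update keep j false) (j + 1 + d) = cur w keep j ++ v := by
    intro d
    induction d with
    | zero =>
      refine ⟨[], ?_, ?_⟩
      · simp [cur, List.range_succ, hk]
      · have h1 : (List.range j).filter (Function.update keep j false) =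
            (List.range j).filter keep := by
          refine List.filter_congr fun i hi => ?_
          have : i ≠ j := by have := List.mem_range.1 hi; omega
          rw [Function.update_of_ne this]
        simp [cur, List.range_succ, h1]
    | succ d ih =>
      obtain ⟨v, h1, h2⟩ := ih
      have h3 : Function.update keep j false (j + 1 + d) = keep (j + 1 + d) :=
        Function.update_of_ne (by omega) _ _
      have e : ∀ kp : ℕ → Bool, cur w kp (j + 1 + (d + 1)) =
          cur w kp (j + 1 + d) ++ (if kp (j + 1 + d) = true then [w (j + 1 + d)] else []) := by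
        intro kp
        unfold cur
        rw [show j + 1 + (d + 1) = (j + 1 + d) + 1 by ring, List.range_succ, List.filter_append,
          List.map_append]
        congr 1
        cases h : kp (j + 1 + d) <;> simp [h]
      refine ⟨v ++ (if keep (j + 1 + d) = true then [w (j + 1 + d)] else []), ?_, ?_⟩
      · rw [e, h1]; simp
      · rw [e, h2, h3]; simp
  obtain ⟨v, h⟩ := key (n - (j + 1))
  rw [show j + 1 + (n - (j + 1)) = n by omega] at h
  exact ⟨v, h⟩

theorem leaf_update (w : ℕ → S) (n : ℕ) (keep : ℕ → Bool) (j : ℕ) :
    A.leaf w n (Function.update keep j false) =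
      Function.update (A.leaf w n keep) j A.triv := by
  funext i
  unfold leaf
  by_cases h : i = j
  · subst h; simp
  · rw [Function.update_of_ne h, Function.update_of_ne h]

end SM

end Pool.Agent.X247.TW
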