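import Pool.Agent.X247.TW.RamOk
import Pool.Agent.X247.TW.Scan

/-!
# The program: a segment tree of behaviours
-/

namespace Pool.Agent.X247.TW

open Pool.Agent.H672R2.Ram

theorem ok_assign_seq {x : ℕ} {e : Expr} {q : Prog} {m : Mem} {d : ℕ} {Q : Mem → Prop}
    (h : Ok q (m.setV x (e.eval m)) d Q) : Ok (.seq (.assign x e) q) m (e.cost + 1 + d) Q :=
  ok_seq (R := fun m' => m' = m.setV x (e.eval m)) (ok_assign rfl) (by rintro _ rfl; exact h)

theorem ok_store_seq {r : ℕ} {i j e : Expr} {q : Prog} {m : Mem} {d : ℕ} {Q : Mem → Prop}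
    (h : Ok q (m.setA r (i.eval m) (j.eval m) (e.eval m)) d Q) :
    Ok (.seq (.store r i j e) q) m (i.cost + j.cost + e.cost + 1 + d) Q :=
  ok_seq (R := fun m' => m' = m.setA r (i.eval m) (j.eval m) (e.eval m)) (ok_store rfl)
    (by rintro _ rfl; exact h)

/-- doubling and halving tables -/
def p1 : Prog :=
  .seq (.assign 4 (.lit 0)) (.loop (.lt (.reg 4) (.succ (.reg 0)))
    (.seq (.store 5 (.lit 0) (.get 4 (.lit 0) (.reg 4)) (.reg 4))
    (.seq (.store 5 (.lit 0) (.succ (.get 4 (.lit 0) (.reg 4))) (.reg 4))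
    (.seq (.store 4 (.lit 0) (.succ (.reg 4)) (.succ (.succ (.get 4 (.lit 0) (.reg 4)))))
      (.assign 4 (.succ (.reg 4)))))))

/-- the invariant of the first phase -/
structure I1 (m0 : Mem) (n i : ℕ) (m : Mem) : Prop where
  h4 : m.v 4 = i
  h0 : m.v 0 = n
  dbl : ∀ j ≤ i, m.a 4 0 j = 2 * j
  half : ∀ j < 2 * i, m.a 5 0 j = j / 2
  rest : ∀ r, r ≠ 4 → r ≠ 5 → m.a r = m0.a r

theorem ok_p1 {m : Mem} {n : ℕ} (hn : m.v 0 = n) (hz : m.a 4 0 0 = 0) :
    Ok p1 m (40 * (n + 1)) (I1 m n (n + 1)) := by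
  unfold p1
  refine (ok_assign_seq (ok_for (c := 25) (n := n + 1) (I1 m n) ?_ ?_ _ 0 (by omega) ?_)).weaken
    ?_ fun _ h => h
  · intro i m' h
    exact ⟨h.h4, by simp [Expr.eval, h.h0]⟩
  · intro i m' hi h
    refine (ok_store_seq (ok_store_seq (ok_store_seq (ok_assign ?_)))).weaken
      (by simp [Expr.cost]) fun _ h => h
    have e1 : m'.a 4 0 i = 2 * i := h.dbl i le_rfl
    constructor
    · simp [Expr.eval, h.h4]
    · simp [Expr.eval, h.h0]
    · intro j hj
      simp only [Expr.eval, setV_a, setA_a, setA_v, h.h4, e1]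
      by_cases hji : j = i + 1
      · simp [hji, e1]; ring
      · rw [if_neg (by omega)]
        simp [h.dbl j (by omega)]
    · intro j hj
      simp only [Expr.eval, setV_a, setA_a, setA_v, h.h4, e1]
      simp [e1]
      by_cases h1 : j = 2 * i + 1
      · rw [if_pos h1]; omega
      · rw [if_neg h1]
        by_cases h2 : j = 2 * i
        · rw [if_pos h2]; omega
        · rw [if_neg h2]
          exact h.half j (by omega)
    · intro r h1 h2
      funext i' j'
      simp [h1, h2, h.rest r h1 h2]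
  · constructor
    · simp [Expr.eval]
    · simp [hn]
    · intro j hj
      have : j = 0 := by omega
      subst this
      simpa using hz
    · intro j hj; omega
    · intro r _ _; rfl
  · simp only [Expr.cost, Test.cost]
    omega

/-- the leaves -/
def p2 : Prog :=
  .seq (.assign 4 (.lit 0)) (.loop (.lt (.reg 4) (.reg 0))
    (.seq (.store 1 (.lit 0) (.reg 4) (.get 8 (.lit 0) (.get 0 (.lit 0) (.reg 4))))
      (.assign 4 (.succ (.reg 4)))))

/-- the invariant of the second phase -/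
structure I2 (m0 : Mem) (n i : ℕ) (m : Mem) : Prop where
  h4 : m.v 4 = i
  h0 : m.v 0 = n
  lf : ∀ h j, m.a 1 h j = if h = 0 ∧ j < i then m0.a 8 0 (m0.a 0 0 j) else m0.a 1 h j
  rest : ∀ r, r ≠ 1 → m.a r = m0.a r

theorem ok_p2 {m : Mem} {n : ℕ} (hn : m.v 0 = n) : Ok p2 m (20 * (n + 1)) (I2 m n n) := by
  unfold p2
  refine (ok_assign_seq (ok_for (c := 11) (n := n) (I2 m n) ?_ ?_ _ 0 (by omega) ?_)).weaken
    ?_ fun _ h => h
  · intro i m' h
    exact ⟨h.h4, by simp [Expr.eval, h.h0]⟩
  · intro i m' hi h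
    refine (ok_store_seq (ok_assign ?_)).weaken (by simp [Expr.cost]) fun _ h => h
    constructor
    · simp [Expr.eval, h.h4]
    · simp [Expr.eval, h.h0]
    · intro h' j
      simp only [Expr.eval, setV_a, setA_a, h.h4, h.lf, true_and, h.rest 8 (by omega),
        h.rest 0 (by omega)]
      by_cases h1 : h' = 0 ∧ j = i
      · rw [if_pos h1, if_pos ⟨h1.1, by omega⟩, h1.2]
      · rw [if_neg h1]
        by_cases h2 : h' = 0 ∧ j < i
        · rw [if_pos h2, if_pos ⟨h2.1, by omega⟩]
        · rw [if_neg h2, if_neg (by omega)]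
    · intro r h1
      funext i' j'
      simp [h1, h.rest r h1]
  · constructor
    · simp [Expr.eval]
    · simp [hn]
    · intro h j; simp
    · intro r _; rfl
  · simp only [Expr.cost, Test.cost]
    omega

variable {s : ℕ} (A : SM (Fin s))

/-- the tables of the machine are in the memory -/
structure Base (n : ℕ) (w : ℕ → Fin s) (m : Mem) : Prop where
  h0 : m.v 0 = n
  mul : ∀ b b' : A.Beh, m.a 2 (A.cd b) (A.cd b') = A.cd (A.comp b b')
  act : ∀ (b : A.Beh) (x : Fin A.K), m.a 3 (A.cd b) x = SM.oc (b x)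
  nx : ∀ (x : Fin A.K) (a : Fin s), m.a 6 x a = A.nx x a
  fin : ∀ x : Fin A.K, m.a 7 0 x = if A.fin x = true then 1 else 0
  lc : ∀ a : Fin s, m.a 8 0 a = A.cd (A.g a)
  inp : ∀ i < n, m.a 0 0 i = w i

theorem Base.congr {A : SM (Fin s)} {n : ℕ} {w : ℕ → Fin s} {m m' : Mem} (h : Base A n w m)
    (h0 : m'.v 0 = m.v 0) (hr : ∀ r, r ≠ 1 → r ≠ 4 → r ≠ 5 → m'.a r = m.a r) :
    Base A n w m' where
  h0 := h0.trans h.h0
  mul := by rw [hr 2 (by omega) (by omega) (by omega)]; exact h.mul
  act := by rw [hr 3 (by omega) (by omega) (by omega)]; exact h.act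
  nx := by rw [hr 6 (by omega) (by omega) (by omega)]; exact h.nx
  fin := by rw [hr 7 (by omega) (by omega) (by omega)]; exact h.fin
  lc := by rw [hr 8 (by omega) (by omega) (by omega)]; exact h.lc
  inp := by rw [hr 0 (by omega) (by omega) (by omega)]; exact h.inp

/-- all tables are in the memory -/
structure Tabs (n : ℕ) (w : ℕ → Fin s) (m : Mem) : Prop where
  base : Base A n w m
  dbl : ∀ j ≤ n + 1, m.a 4 0 j = 2 * j
  half : ∀ j < 2 * (n + 1), m.a 5 0 j = j / 2

theorem Tabs.congr {A : SM (Fin s)} {n : ℕ} {w : ℕ → Fin s} {m m' : Mem} (h : Tabs A n w m)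
    (h0 : m'.v 0 = m.v 0) (hr : ∀ r, r ≠ 1 → m'.a r = m.a r) : Tabs A n w m' where
  base := h.base.congr h0 fun r h1 _ _ => hr r h1
  dbl := by rw [hr 4 (by omega)]; exact h.dbl
  half := by rw [hr 5 (by omega)]; exact h.half

/-- one level of the segment tree -/
def p3in : Prog :=
  .loop (.lt (.reg 4) (.reg 0))
    (.seq (.store 1 (.succ (.reg 2)) (.reg 4)
      (.get 2 (.get 1 (.reg 2) (.get 4 (.lit 0) (.reg 4)))
        (.get 1 (.reg 2) (.succ (.get 4 (.lit 0) (.reg 4))))))
      (.assign 4 (.succ (.reg 4))))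

/-- the segment tree -/
def p3 : Prog :=
  .seq (.assign 2 (.lit 0)) (.seq (.assign 3 (.lit 1)) (.loop (.lt (.reg 3) (.reg 0))
    (.seq (.assign 4 (.lit 0)) (.seq p3in (.seq (.assign 2 (.succ (.reg 2)))
      (.assign 3 (.get 4 (.lit 0) (.reg 3))))))))

/-- the invariant of one level -/
structure I3in (n : ℕ) (w : ℕ → Fin s) (l : ℕ → A.Beh) (H i : ℕ) (m : Mem) : Prop where
  tabs : Tabs A n w m
  h2 : m.v 2 = H
  h3 : m.v 3 = 2 ^ H
  h4 : m.v 4 = i
  seg : ∀ h ≤ H, ∀ j, m.a 1 h j = A.cd (A.seg l h j)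
  new : ∀ j, m.a 1 (H + 1) j = if j < i then A.cd (A.seg l (H + 1) j) else 0
  zero : ∀ h, H + 1 < h → ∀ j, m.a 1 h j = 0

theorem ok_p3in {n : ℕ} {w : ℕ → Fin s} {l : ℕ → A.Beh} {H : ℕ} {m : Mem}
    (h : I3in A n w l H 0 m) : Ok p3in m (30 * (n + 1)) (I3in A n w l H n) := by
  unfold p3in
  refine (ok_for (c := 21) (n := n) (I3in A n w l H) ?_ ?_ m 0 (by omega) h).weaken
    ?_ fun _ h => h
  · intro i m' h
    exact ⟨h.h4, by simp [Expr.eval, h.tabs.base.h0]⟩
  · intro i m' hi h
    have e1 : m'.a 4 0 i = 2 * i := h.tabs.dbl i (by omega)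
    refine (ok_store_seq (ok_assign ?_)).weaken (by simp [Expr.cost]) fun _ h => h
    constructor
    · exact h.tabs.congr (by simp) fun r hr => by funext i' j'; simp [hr]
    · simp [h.h2]
    · simp [h.h3]
    · simp [Expr.eval, h.h4]
    · intro h' hh' j
      simp only [Expr.eval, setV_a, setA_a, h.h2]
      rw [if_neg (by omega)]
      exact h.seg h' hh' j
    · intro j
      simp only [Expr.eval, setV_a, setA_a, h.h2, h.h4, e1, true_and]
      by_cases hj : j = i
      · rw [if_pos hj, if_pos (by omega), h.seg H le_rfl, h.seg H le_rfl, h.tabs.base.mul, hj]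
        rfl
      · rw [if_neg hj, h.new]
        by_cases h2 : j < i
        · rw [if_pos h2, if_pos (by omega)]
        · rw [if_neg h2, if_neg (by omega)]
    · intro h' hh' j
      simp only [Expr.eval, setV_a, setA_a, h.h2]
      rw [if_neg (by omega)]
      exact h.zero h' hh' j
  · simp only [Expr.cost, Test.cost]
    omega

/-- the invariant of the levels -/
structure I3 (n : ℕ) (w : ℕ → Fin s) (l : ℕ → A.Beh) (H : ℕ) (m : Mem) : Prop where
  tabs : Tabs A n w m
  h2 : m.v 2 = H
  h3 : m.v 3 = 2 ^ H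
  seg : ∀ h ≤ H, ∀ j, m.a 1 h j = A.cd (A.seg l h j)
  zero : ∀ h, H < h → ∀ j, m.a 1 h j = 0

theorem ok_p3 {n : ℕ} {w : ℕ → Fin s} {l : ℕ → A.Beh} {m : Mem} (ht : Tabs A n w m)
    (hl : ∀ j, n ≤ j → l j = A.triv) (h0 : ∀ j, m.a 1 0 j = A.cd (l j))
    (hz : ∀ h, 0 < h → ∀ j, m.a 1 h j = 0) :
    Ok p3 m (60 * (n + 1) * (Nat.clog 2 n + 1)) (I3 A n w l (Nat.clog 2 n)) := by
  unfold p3
  have hseg0 : ∀ h j, n ≤ j → A.cd (A.seg l h j) = 0 := fun h j hj => by
    rw [A.seg_triv hl h j hj, A.cd_triv]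
  refine (ok_assign_seq (ok_assign_seq (ok_loop (c := 40 * (n + 1)) (k := Nat.clog 2 n)
    (fun k m => ∃ H, H + k = Nat.clog 2 n ∧ I3 A n w l H m) ?_ _ ?_))).weaken ?_ fun _ h => h
  · rintro k m' ⟨H, hk, hI⟩
    have hlt : (Test.lt (.reg 3) (.reg 0)).holds m' ↔ H < Nat.clog 2 n := by
      simp only [Test.holds, Expr.eval, hI.h3, hI.tabs.base.h0]
      exact (Nat.lt_clog_iff_pow_lt one_lt_two).symm
    rw [hlt]
    by_cases hk0 : k = 0
    · subst hk0
      left
      refine ⟨by omega, ?_⟩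
      have : H = Nat.clog 2 n := by omega
      rwa [this] at hI
    · right
      refine ⟨by omega, k - 1, by omega, ?_⟩
      have hpw : 2 ^ H < n := (Nat.lt_clog_iff_pow_lt one_lt_two).1 (by omega)
      refine (ok_assign_seq (ok_seq (ok_p3in A (n := n) (w := w) (l := l) (H := H) ?_)
        fun m'' hm'' => ok_assign_seq (ok_assign ?_))).weaken ?_ fun _ h => h
      · constructor
        · exact hI.tabs.congr (by simp) fun r hr => by simp
        · simp [hI.h2]
        · simp [hI.h3]
        · simp [Expr.eval]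
        · intro h' hh' j; exact hI.seg h' hh' j
        · intro j; simp [hI.zero (H + 1) (by omega)]
        · intro h' hh' j; exact hI.zero h' (by omega) j
      · refine ⟨H + 1, by omega, ?_⟩
        constructor
        · exact hm''.tabs.congr (by simp) fun r hr => by simp
        · simp [Expr.eval, hm''.h2]
        · simp only [Expr.eval, setV_v, setV_a]
          simp only [if_true, if_neg (show (3 : ℕ) ≠ 2 by omega), hm''.h3]
          rw [hm''.tabs.dbl _ (by omega), pow_succ]
          ring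
        · intro h' hh' j
          simp only [setV_a]
          rcases Nat.lt_succ_iff_lt_or_eq.1 (Nat.lt_succ_of_le hh') with h1 | h1
          · exact hm''.seg h' (by omega) j
          · rw [h1, hm''.new]
            by_cases hj : j < n
            · rw [if_pos hj]
            · rw [if_neg hj, hseg0 _ _ (by omega)]
        · intro h' hh' j
          simp only [setV_a]
          exact hm''.zero h' hh' j
      · simp only [Expr.cost]
        omega
  · refine ⟨0, by omega, ?_⟩
    constructor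
    · exact ht.congr (by simp) fun r hr => by simp
    · simp [Expr.eval]
    · simp [Expr.eval]
    · intro h' hh' j
      have : h' = 0 := by omega
      subst this
      exact h0 j
    · exact hz
  · simp only [Expr.cost, Test.cost]
    nlinarith [Nat.zero_le (Nat.clog 2 n), Nat.zero_le n]

end Pool.Agent.X247.TW
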