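import Pool.Agent.H672R2.RamLemmas

/-!
# Reasoning about programs of the random access machine
-/

namespace Pool.Agent.X247.TW

open Pool.Agent.H672R2.Ram

/-- `p` started in `m` stops within time `c` in a memory satisfying `Q`. -/
def Ok (p : Prog) (m : Mem) (c : ℕ) (Q : Mem → Prop) : Prop :=
  ∃ m' t, Runs p m m' t ∧ t ≤ c ∧ Q m'

theorem Ok.weaken {p : Prog} {m : Mem} {c c' : ℕ} {Q Q' : Mem → Prop} (h : Ok p m c Q)
    (hc : c ≤ c') (hQ : ∀ m', Q m' → Q' m') : Ok p m c' Q' := by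
  obtain ⟨m', t, h1, h2, h3⟩ := h
  exact ⟨m', t, h1, h2.trans hc, hQ _ h3⟩

theorem ok_skip {m : Mem} {Q : Mem → Prop} (h : Q m) : Ok .skip m 1 Q :=
  ⟨m, 1, Runs.skip m, le_rfl, h⟩

theorem ok_assign {x : ℕ} {e : Expr} {m : Mem} {Q : Mem → Prop} (h : Q (m.setV x (e.eval m))) :
    Ok (.assign x e) m (e.cost + 1) Q := ⟨_, _, Runs.assign x e m, le_rfl, h⟩

theorem ok_store {r : ℕ} {i j e : Expr} {m : Mem} {Q : Mem → Prop}
    (h : Q (m.setA r (i.eval m) (j.eval m) (e.eval m))) :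
    Ok (.store r i j e) m (i.cost + j.cost + e.cost + 1) Q :=
  ⟨_, _, Runs.store r i j e m, le_rfl, h⟩

theorem ok_seq {p q : Prog} {m : Mem} {c d : ℕ} {Q R : Mem → Prop} (h : Ok p m c R)
    (h' : ∀ m', R m' → Ok q m' d Q) : Ok (.seq p q) m (c + d) Q := by
  obtain ⟨m', t, h1, h2, h3⟩ := h
  obtain ⟨m'', t', h4, h5, h6⟩ := h' m' h3
  exact ⟨m'', t + t', Runs.seq h1 h4, by omega, h6⟩

theorem ok_ite {t : Test} {p q : Prog} {m : Mem} {c : ℕ} {Q : Mem → Prop}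
    (h1 : t.holds m → Ok p m c Q) (h2 : ¬ t.holds m → Ok q m c Q) :
    Ok (.ite t p q) m (t.cost + c) Q := by
  by_cases h : t.holds m
  · obtain ⟨m', s, h3, h4, h5⟩ := h1 h
    exact ⟨m', _, Runs.ite_true h h3, by omega, h5⟩
  · obtain ⟨m', s, h3, h4, h5⟩ := h2 h
    exact ⟨m', _, Runs.ite_false h h3, by omega, h5⟩

/-- Loops with an invariant and a bound on the number of the remaining rounds. -/
theorem ok_loop {t : Test} {p : Prog} {c : ℕ} {Q : Mem → Prop} (Inv : ℕ → Mem → Prop)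
    (hstep : ∀ k m, Inv k m → (¬ t.holds m ∧ Q m) ∨
      (t.holds m ∧ ∃ k', k = k' + 1 ∧ Ok p m c (Inv k'))) :
    ∀ k m, Inv k m → Ok (.loop t p) m (k * (t.cost + c) + t.cost) Q := by
  intro k
  induction k with
  | zero =>
    intro m h
    rcases hstep 0 m h with ⟨h1, h2⟩ | ⟨_, k', h2, _⟩
    · exact ⟨m, _, Runs.loop_done h1, by omega, h2⟩
    · omega
  | succ k ih =>
    intro m h
    rcases hstep (k + 1) m h with ⟨h1, h2⟩ | ⟨h1, k', h2, m', s, h3, h4, h5⟩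
    · exact ⟨m, _, Runs.loop_done h1, Nat.le_add_left _ _, h2⟩
    · obtain rfl : k' = k := by omega
      obtain ⟨m'', s', h6, h7, h8⟩ := ih m' h5
      refine ⟨m'', _, Runs.loop_step h1 h3 h6, ?_, h8⟩
      rw [Nat.succ_mul]
      omega

/-- Counting loops: register `x` runs from its current value up to `n`. -/
theorem ok_for {x : ℕ} {bound : Expr} {p : Prog} {c n : ℕ} (Inv : ℕ → Mem → Prop)
    (hb : ∀ i m, Inv i m → m.v x = i ∧ bound.eval m = n)
    (hstep : ∀ i m, i < n → Inv i m → Ok p m c (Inv (i + 1))) (m : Mem) (i : ℕ) (hi : i ≤ n)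
    (h : Inv i m) :
    Ok (.loop (.lt (.reg x) bound) p) m
      ((n - i) * ((Test.lt (.reg x) bound).cost + c) + (Test.lt (.reg x) bound).cost)
      (Inv n) := by
  refine ok_loop (fun k m => k ≤ n ∧ Inv (n - k) m) ?_ (n - i) m ⟨by omega, ?_⟩
  · rintro k m ⟨hk, hI⟩
    obtain ⟨h1, h2⟩ := hb _ _ hI
    simp only [Test.holds, Expr.eval, h1, h2]
    by_cases hk0 : k = 0
    · subst hk0
      exact Or.inl ⟨by omega, by simpa using hI⟩
    · refine Or.inr ⟨by omega, k - 1, by omega, ?_⟩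
      refine (hstep _ m (by omega) hI).weaken le_rfl fun m' hm' => ⟨by omega, ?_⟩
      rwa [show n - k + 1 = n - (k - 1) by omega] at hm'
  · rwa [show n - (n - i) = i by omega]

/-! ### Tables -/

/-- store `f i j` for `j < N'` -/
def rowP (r i : ℕ) (f : ℕ → ℕ → ℕ) : ℕ → Prog
  | 0 => .skip
  | j + 1 => .seq (rowP r i f j) (.store r (.lit i) (.lit j) (.lit (f i j)))

/-- store `f i j` for `i < N`, `j < N'` -/
def tabP (r N' : ℕ) (f : ℕ → ℕ → ℕ) : ℕ → Prog
  | 0 => .skip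
  | i + 1 => .seq (tabP r N' f i) (rowP r i f N')

theorem ok_row (r i : ℕ) (f : ℕ → ℕ → ℕ) (m : Mem) : ∀ N', Ok (rowP r i f N') m (4 * N' + 1)
    (fun m' => m'.v = m.v ∧ ∀ r' i' j', m'.a r' i' j' =
      if r' = r ∧ i' = i ∧ j' < N' then f i' j' else m.a r' i' j') := by
  intro N'
  induction N' with
  | zero => exact ok_skip ⟨rfl, fun r' i' j' => by simp⟩
  | succ N' ih =>
    refine (ok_seq ih fun m' hm' => ok_store ?_ (Q := fun m' => m'.v = m.v ∧ ∀ r' i' j',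
      m'.a r' i' j' = if r' = r ∧ i' = i ∧ j' < N' + 1 then f i' j' else m.a r' i' j')).weaken
      (by simp only [Expr.cost]; omega) fun _ h => h
    refine ⟨by rw [setA_v]; exact hm'.1, fun r' i' j' => ?_⟩
    simp only [setA_a, Expr.eval, hm'.2]
    by_cases h1 : r' = r ∧ i' = i ∧ j' = N'
    · obtain ⟨rfl, rfl, rfl⟩ := h1
      simp
    · rw [if_neg h1]
      by_cases h2 : r' = r ∧ i' = i ∧ j' < N'
      · rw [if_pos h2, if_pos ⟨h2.1, h2.2.1, by omega⟩]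
      · rw [if_neg h2, if_neg]
        rintro ⟨h3, h4, h5⟩
        rcases Nat.lt_succ_iff_lt_or_eq.1 h5 with h6 | h6
        · exact h2 ⟨h3, h4, h6⟩
        · exact h1 ⟨h3, h4, h6⟩

theorem ok_tab (r N' : ℕ) (f : ℕ → ℕ → ℕ) (m : Mem) : ∀ N,
    Ok (tabP r N' f N) m (N * (4 * N' + 1) + 1)
    (fun m' => m'.v = m.v ∧ ∀ r' i' j', m'.a r' i' j' =
      if r' = r ∧ i' < N ∧ j' < N' then f i' j' else m.a r' i' j') := by
  intro N
  induction N with
  | zero => exact (ok_skip ⟨rfl, fun r' i' j' => by simp⟩).weaken (by omega) fun _ h => h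
  | succ N ih =>
    refine (ok_seq ih fun m' hm' => (ok_row r N f m' N').weaken le_rfl
      (Q' := fun m' => m'.v = m.v ∧ ∀ r' i' j', m'.a r' i' j' =
        if r' = r ∧ i' < N + 1 ∧ j' < N' then f i' j' else m.a r' i' j') fun m'' hm'' => ?_).weaken
      (by
        have : (N + 1) * (4 * N' + 1) = N * (4 * N' + 1) + (4 * N' + 1) := by ring
        omega) fun _ h => h
    refine ⟨hm''.1.trans hm'.1, fun r' i' j' => ?_⟩
    rw [hm''.2, hm'.2]
    by_cases h1 : r' = r ∧ i' = N ∧ j' < N'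
    · rw [if_pos h1, if_pos ⟨h1.1, by omega, h1.2.2⟩]
    · rw [if_neg h1]
      by_cases h2 : r' = r ∧ i' < N ∧ j' < N'
      · rw [if_pos h2, if_pos ⟨h2.1, by omega, h2.2.2⟩]
      · rw [if_neg h2, if_neg]
        rintro ⟨h3, h4, h5⟩
        rcases Nat.lt_succ_iff_lt_or_eq.1 h4 with h6 | h6
        · exact h2 ⟨h3, h6, h5⟩
        · exact h1 ⟨h3, h6, h5⟩

end Pool.Agent.X247.TW
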